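import Mathlib
import Pool.Agent.P.MP_9682d1_al.G.Top
import Pool.Agent.P.MP_9682d1_al.T4.Norm
import Pool.Agent.P.MP_9682d1_al.KB.E5a

set_option autoImplicit false

namespace Pool.Agent.P.MP_9682d1_al.F

open Pool.Agent.P.MP_9682d1_al.C Pool.Agent.P.MP_9682d1_al.G

universe u

/-- if class 2 pairs of conjugates commute then `a` is trivial. -/
theorem triv_of_p2 {G : Type u} [Group G] (h0 : HP G = ⊥) {a : G} (ha : RE 4 a)
    (h : ∀ u ∈ cls a, ∀ v ∈ cls a, P2 u v → Commute u v) : a = 1 := by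
  have I : ∀ c, ∀ u ∈ cls a, ∀ v ∈ cls a,
      (Subgroup.closure {u, v}).lowerCentralSeries (c + 1) = ⊥ → Commute u v := by
    intro c
    induction c with
    | zero =>
      intro u _ v _ e
      rw [← cm_eq_one, ← Subgroup.mem_bot, ← e]
      exact cm_mem_lcs (n := 0) (Subgroup.subset_closure (by simp))
        (Subgroup.subset_closure (by simp))
    | succ c ih =>
      intro u hu v hv e
      exact h u hu v hv (p2_of_comm (ih v hv _ (cj_cls a v hv u) (lcs_pair e))
        (ih u hu _ (cj_cls a u hu v) (lcs_pair (by rwa [Set.pair_comm]))))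
  obtain ⟨n, hn⟩ := exists_class_cls ha A.A0
  refine eq_one_of_comm h0 (cj_cls a) (fun u hu v hv => I n u hu v hv ?_) (self_mem_cls a)
  rw [Subgroup.lowerCentralSeries_succ, hn u hu v, Subgroup.commutator_bot_left]

theorem comm_pow5 {G : Type u} [Group G] {a : G} (ha : RE 4 a) (h5 : a ^ 5 = 1) (g : G) :
    Commute a (g ^ 5) :=
  cm_eq_one.mp (KB.E5a.main _ (A.A0 G a g ha) a g (Subgroup.subset_closure (by simp))
    (Subgroup.subset_closure (by simp)) h5 fun x _ => ha x)

/-- the case of a group of exponent 5. -/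
def S5x : Prop :=
  ∀ (G : Type u) [Group G], HP G = ⊥ → (∀ x : G, x ^ 5 = 1) → ∀ a : G, RE 4 a → a = 1

theorem sp5_of_s5x (H : S5x.{u}) : Sp.{u} 5 := by
  intro G _ a ha h5
  refine RE.hp_of_semi ha fun Q _ φ hφ h0 => ?_
  have hb := ha.map hφ
  have b5 : φ a ^ 5 = 1 := by rw [← map_pow, h5, map_one]
  generalize φ a = b at hb b5
  have nN := (cj_cls b).normal
  set N := Subgroup.closure (cls b) with hN
  let π := QuotientGroup.mk' (Subgroup.centralizer (N : Set Q))
  have hs := QuotientGroup.mk'_surjective (Subgroup.centralizer (N : Set Q))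
  have ex : ∀ x : Q, π x ^ 5 = 1 := by
    intro x
    rw [← map_pow]
    refine (QuotientGroup.eq_one_iff _).mpr ?_
    rw [hN, Subgroup.centralizer_closure]
    exact fun y hy => (comm_pow5 (hb.cls hy) (B3.cls_pow b5 hy) x).eq
  have hp : π b ∈ HP _ := RE.hp_of_semi (hb.map hs) fun R _ ψ hψ r0 =>
    H R r0 (fun x => by
      obtain ⟨x, rfl⟩ := (hψ.comp hs) x
      rw [Function.comp, ← map_pow, ex, map_one]) _ ((hb.map hs).map hψ)
  have inj : Function.Injective (π.comp N.subtype) := by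
    rw [injective_iff_map_eq_one]
    intro z hz
    exact Subtype.ext (eq_one_of_central h0 (cj_cls _) z.2 fun y hy =>
      ((QuotientGroup.eq_one_iff _).mp hz y (Subgroup.subset_closure hy)).symm)
  have hle : N ≤ (HP _).comap π := by
    rw [Subgroup.closure_le]
    exact cls_sub (cj_normal _) hp
  exact eq_one_of_ln h0 (cj_normal N) (((HP_ln.preimage inj).image N.subtype).mono
    fun z hz => ⟨⟨z, hz⟩, hle hz, rfl⟩) (Subgroup.subset_closure (self_mem_cls b))

/-- the three generator fact that is needed in exponent 5. -/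
def F5 : Prop :=
  ∀ (G : Type u) [Group G], HP G = ⊥ → (∀ x : G, x ^ 5 = 1) → ∀ a : G, RE 4 a →
    ∀ u ∈ cls a, ∀ v ∈ cls a, P2 u v → ∀ c ∈ cls a,
      cm (cm c (cm u v)) (cm u v) = 1 ∧ cm (cm (c ^ 2) (cm u v)) (cm u v) = 1

theorem s5x_of_f5 (H : F5.{u}) : S5x.{u} := by
  intro G _ h0 ex a ha
  refine triv_of_p2 h0 ha fun u hu v hv p => cm_eq_one.mp ?_
  refine T4.norm5 h0 (X := cls a) (B3.cm2_cj (cj_cls a)) (fun x _ => ex x) T4.cm2_sub ?_ ?_ _
    ⟨u, hu, v, hv, p, rfl⟩
  · rintro _ ⟨s, hs, t, _, q, rfl⟩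
    exact ⟨s, q.1.symm, fun k => by rw [← B3.P2.cj_pow q k]; exact cj_cls a s hs _⟩
  · rintro _ ⟨s, hs, t, ht, q, rfl⟩ c hc
    exact H G h0 ex a ha s hs t ht q c hc

theorem sp5_of_f5 (H : F5.{u}) : Sp.{u} 5 := sp5_of_s5x (s5x_of_f5 H)

end Pool.Agent.P.MP_9682d1_al.F
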