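import Mathlib
import Pool.Agent.P.MP_9682d1_al.A.A3
import Pool.Agent.P.MP_9682d1_al.KB.LemA
import Pool.Agent.P.MP_9682d1_al.KB.E5x
import Pool.Agent.P.MP_9682d1_al.KB.E52
import Pool.Agent.P.MP_9682d1_al.KB.E53

set_option autoImplicit false

namespace Pool.Agent.P.MP_9682d1_al.F

open Pool.Agent.P.MP_9682d1_al.KB

universe u

variable {G : Type u} [Group G]

theorem cm_one {x y : G} : cm x y = 1 ↔ Commute x y := C.cm_eq_one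

theorem m1 (a g : G) : a ∈ Subgroup.closure ({a, g} : Set G) := Subgroup.subset_closure (by simp)

theorem m2 (a g : G) : g ∈ Subgroup.closure ({a, g} : Set G) := Subgroup.subset_closure (by simp)

/-- Horn clause LemA -/
theorem lemA {a : G} (ha : C.RE 4 a) (x : G) (h : cm (cj a x) a = 1) :
    cm (cj a x) (cj a x⁻¹) = 1 ∧ cm (cj a (x * x)) (cj a x⁻¹) = 1 := by
  obtain ⟨t1, t2, -⟩ := LemA.main a x (cm_one.2 (cm_one.1 h).symm) ha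
  have c1 := (A.commute_cj (cm_one.1 t1) x⁻¹).symm
  have c2 := (A.commute_cj (cm_one.1 t2) x⁻¹).symm
  have e1 : A.cj (cj a (x ^ 2)) x⁻¹ = cj a x := by
    simp only [A.cj, cj, pow_succ, pow_zero]; group
  have e2 : A.cj (cj a (x ^ 3)) x⁻¹ = cj a (x * x) := by
    simp only [A.cj, cj, pow_succ, pow_zero]; group
  rw [e1] at c1
  rw [e2] at c2
  exact ⟨cm_one.2 c1, cm_one.2 c2⟩

/-- Horn clause W3 -/
theorem hornW3 {a : G} (ha : C.RE 4 a) (x y : G) (h0 : cm a y = 1) (h1 : cm (cj a x) y = 1)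
    (h2 : cm (cj a x⁻¹) y = 1) :
    cm (cj a (x * x)) y = 1 ∧ cm (cj a (x⁻¹ * x⁻¹)) y = 1 := by
  have k := A.w3 ha x y (-1) (by simpa [A.sq, A.cj, cj] using (cm_one.1 h2).symm)
    (by simpa [A.sq, A.cj] using (cm_one.1 h0).symm)
    (by simpa [A.sq, A.cj, cj] using (cm_one.1 h1).symm)
  have e1 : A.sq a x 2 = cj a (x * x) := by
    simp only [A.sq, A.cj, cj, zpow_two]
  have e2 : A.sq a x (-2) = cj a (x⁻¹ * x⁻¹) := by
    simp only [A.sq, A.cj, cj, zpow_neg, zpow_two, mul_inv_rev]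
  exact ⟨cm_one.2 (e1 ▸ (k 2).symm), cm_one.2 (e2 ▸ (k (-2)).symm)⟩

variable (ex : ∀ x : G, x ^ 5 = 1) {a : G} (ha : C.RE 4 a)
include ex ha

/-- the pair laws for `a` and a conjugate `b` -/
theorem pair5 {b : G} (hb : b ∈ C.cls a) :
    cm (cm (cm (cm b a) a) a) a = 1 ∧ cm (cm (cm (cm b a) a) a) b = 1 ∧
    cm (cm (cm (cm b a) b) b) a = 1 ∧ cm (cm (cm (cm b a) b) b) b = 1 ∧
    cm (cm (cm b a) a) a = cm (cm (cm b a) b) b ∧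
    cm (cm (cm b a) a) a = cm (cm (cm b a) a) b ^ 2 ∧
    cm (cm (cm b a) b) a = cm (cm (cm b a) a) b := by
  obtain ⟨g, rfl⟩ := hb
  obtain ⟨t1, t2, t3, t4, t5, t6, -, -, -, -, -, t7⟩ := E5x.main _ (A.A0 G a g ha) a g (m1 a g)
    (m2 a g) (ex a) (ex g) (fun x _ => ex x) fun x _ => ha x
  exact ⟨t1, t2, t3, t4, t5, t6, t7⟩

/-- the weight 4 term of a pair is central in `⟨a, g⟩` -/
theorem z4 (g : G) : cm (cm (cm (cm (cj a g) a) a) a) g = 1 ∧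
    cm (cm (cm (cm (cj a g) a) (cj a g)) (cj a g)) g = 1 := by
  obtain ⟨-, -, -, -, -, -, t1, t2, -⟩ := E5x.main _ (A.A0 G a g ha) a g (m1 a g)
    (m2 a g) (ex a) (ex g) (fun x _ => ex x) fun x _ => ha x
  exact ⟨t1, t2⟩

/-- the centred laws and the law C8 -/
theorem cent5 (g : G) :
    a⁻¹ * cj a g⁻¹ * a⁻¹ * cj a g * cj a⁻¹ (g ^ 2) * cj a g =
      cj a⁻¹ (g ^ 2) * cj a g * a⁻¹ * cj a g * a⁻¹ * cj a g⁻¹ ∧
    a⁻¹ * cj a g⁻¹ * cj a⁻¹ (g⁻¹ ^ 2) * cj a g⁻¹ * a⁻¹ * cj a g⁻¹ * a⁻¹ * cj a g =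
      cj a⁻¹ g * a * cj a⁻¹ g⁻¹ * a * cj a⁻¹ g * a * cj a⁻¹ g * cj a (g ^ 2) ∧
    cm (cm a g) (cj (cm a (g * g)) (g * g)) = 1 := by
  obtain ⟨-, -, -, -, -, -, -, -, t1, t2, t3, -⟩ := E5x.main _ (A.A0 G a g ha) a g (m1 a g)
    (m2 a g) (ex a) (ex g) (fun x _ => ex x) fun x _ => ha x
  exact ⟨t1, t2, t3⟩

/-- Horn clause F2 -/
theorem hornF2 (x y : G) (h : cm a y = 1) :
    cm (cm (cm (cm (cj a x) a) a) a) y = 1 ∧
    cm (cm (cm (cm (cj a x) a) (cj a x)) (cj a x)) y = 1 := by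
  have e : cj a (y * x) = cj a x := by
    have := C.cj_of_comm (cm_one.1 h)
    calc cj a (y * x) = x⁻¹ * (y⁻¹ * a * y) * x := by unfold cj; group
      _ = _ := by rw [this]; rfl
  obtain ⟨p1, p2⟩ := z4 ex ha x
  obtain ⟨q1, q2⟩ := z4 ex ha (y * x)
  rw [e] at q1 q2
  have k : ∀ z : G, cm z x = 1 → cm z (y * x) = 1 → cm z y = 1 := fun z h1 h2 => by
    simpa using cm_one.2 ((cm_one.1 h2).mul_right (cm_one.1 h1).inv_right)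
  exact ⟨k _ p1 q1, k _ p2 q2⟩

/-- F2 for a conjugate -/
theorem f2_cls {b y : G} (hb : b ∈ C.cls a) (h : cm a y = 1) :
    cm (cm (cm (cm b a) a) a) y = 1 ∧ cm (cm (cm (cm b a) b) b) y = 1 := by
  obtain ⟨g, rfl⟩ := hb
  exact hornF2 ex ha g y h

/-- Horn clause E2 -/
theorem hornE2 (g : G) (h4 : cm (cm (cj a g) a) a = 1) (h5 : cm (cm (cj a g) a) (cj a g) = 1) :
    cm (cm (cj a g) a) (cj a g⁻¹) = 1 ∧
    cm (cm (cj a g) a) (cj a (g * g)) = 1 ∧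
    cm (cm (cj a g) a) (cj a (g⁻¹ * g⁻¹)) = 1 ∧
    cm (cm (cj a g) (cj a g⁻¹)) a = 1 ∧
    cm (cm (cj a g) (cj a g⁻¹)) (cj a g) = 1 ∧
    cm (cm (cj a g) (cj a g⁻¹)) (cj a g⁻¹) = 1 ∧
    cm (cm (cj a g) (cj a g⁻¹)) (cj a (g * g)) = 1 ∧
    cm (cm (cj a g) (cj a g⁻¹)) (cj a (g⁻¹ * g⁻¹)) = 1 ∧
    cm (cm (cm (cm (cj a g) a) g) g) g = 1 :=
  E52.main _ (A.A0 G a g ha) a g (m1 a g) (m2 a g) (ex a) (ex g) (fun x _ => ex x)
    (fun x _ => ha x) h4 h5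

/-- Horn clause E3 -/
theorem hornE3 (g : G) (h4 : cm (cm (cm (cj a g) a) a) a = 1)
    (h5 : cm (cm (cm (cj a g) a) a) (cj a g) = 1) :
    cm (cm (cm (cj a g) a) a) (cj a g⁻¹) = 1 ∧
    cm (cm (cm (cj a g) a) (cj a g)) (cj a g⁻¹) = 1 ∧
    cm (cm (cm (cj a g) a) a) (cj a (g * g)) = 1 ∧
    cm (cm (cm (cj a g) a) (cj a g)) (cj a (g * g)) = 1 :=
  E53.main _ (A.A0 G a g ha) a g (m1 a g) (m2 a g) (ex a) (ex g) (fun x _ => ex x)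
    (fun x _ => ha x) h4 h5

end Pool.Agent.P.MP_9682d1_al.F
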