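import Mathlib
import Pool.Agent.P.MP_9682d1_al.F.Laws
import Pool.Agent.P.MP_9682d1_al.KB.P45
import Pool.Agent.P.MP_9682d1_al.KB.E5h

set_option autoImplicit false

namespace Pool.Agent.P.MP_9682d1_al.F

open Pool.Agent.P.MP_9682d1_al.KB

universe u

variable {G : Type u} [Group G]

/-- Horn clause H2 -/
theorem hornH2 (ex : ∀ x : G, x ^ 5 = 1) {a : G} (ha : C.RE 4 a) (g : G)
    (h : cm (cm (cj a g) a) (cj a g * a⁻¹) = 1) : cm (cm (cm (cj a g) a) a) g = 1 :=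
  E5h.main _ (A.A0 G a g ha) a g (m1 a g) (m2 a g) (ex a) (ex g) (fun x _ => ex x)
    (fun x _ => ha x) h

/-- F2 for an arbitrary partner `s` that satisfies the six pair laws with `u` -/
theorem f2_mixed (ex : ∀ x : G, x ^ 5 = 1) {u s : G} (hu : C.RE 4 u)
    (h1 : cm (cm (cm (cm s u) u) u) u = 1) (h2 : cm (cm (cm (cm s u) u) u) s = 1)
    (h3 : cm (cm (cm (cm s u) s) s) u = 1) (h4 : cm (cm (cm (cm s u) s) s) s = 1)
    (h5 : cm (cm (cm s u) u) u = cm (cm (cm s u) s) s)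
    (h6 : cm (cm (cm s u) u) u = cm (cm (cm s u) u) s ^ 2) {y : G} (hy : cm u y = 1) :
    cm (cm (cm (cm s u) u) u) y = 1 ∧ cm (cm (cm (cm s u) s) s) y = 1 := by
  obtain ⟨t1, t2⟩ := P45.main u s h1 h2 h3 h4 h5 h6 (ex _) (ex _)
  have e : cj u (y * s) = cj u s := by
    have := C.cj_of_comm (cm_one.1 hy)
    calc cj u (y * s) = s⁻¹ * (y⁻¹ * u * y) * s := by unfold cj; group
      _ = _ := by rw [this]; rfl
  have q := hornH2 ex hu (y * s) (by rw [e]; exact t1)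
  have p := hornH2 ex hu s t1
  rw [e] at q
  have k : Commute (cm (cm (cj u s) u) u) y := by
    simpa using (cm_one.1 q).mul_right (cm_one.1 p).inv_right
  rw [mul_eq_one_iff_eq_inv.1 t2, Commute.inv_left_iff] at k
  exact ⟨cm_one.2 k, by rw [← h5]; exact cm_one.2 k⟩

end Pool.Agent.P.MP_9682d1_al.F
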